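import Pool.Agent.W542.Tal.Final

set_option autoImplicit false

namespace Pool.Agent.Results.MP_324c10_co.ExplicitConstant

open Finset

/-- measure of `A` -/
noncomputable def mu {n : ℕ} (A : Finset (Fin n → Bool)) : ℝ := (A.card : ℝ) / 2 ^ n

/-- influence of the coordinate `i` on `A` (same expression as in the frozen statement) -/
noncomputable def infl {n : ℕ} (A : Finset (Fin n → Bool)) (i : Fin n) : ℝ :=
  ((Finset.univ.filter (fun (x : Fin n → Bool) =>
    ¬ (x ∈ A ↔ Function.update x i (!(x i)) ∈ A))).card : ℝ) / 2 ^ n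

/-- For every set `A`: `4p(1-p)` is at most the sum of `b(4-b)/(3+2ln(1/b))` over the influences `b`,
and (if no influence is `1`) that sum is at most `2/ln 2` times Talagrand's sum. -/
theorem result (n : ℕ) (A : Finset (Fin n → Bool)) :
    4 * mu A * (1 - mu A) ≤
        ∑ i : Fin n, infl A i * (4 - infl A i) / (3 + 2 * Real.log (1 / infl A i)) ∧
    ((∀ i, infl A i ≠ 1) →
      ∑ i : Fin n, infl A i * (4 - infl A i) / (3 + 2 * Real.log (1 / infl A i)) ≤
        2 / Real.log 2 * ∑ i : Fin n, infl A i / Real.logb 2 (1 / infl A i)) :=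
  ⟨W542.Tal.main_ineq n A, fun h => W542.Tal.sum_compare n A h⟩

end Pool.Agent.Results.MP_324c10_co.ExplicitConstant
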