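import Pool.Agent.W542.Tal.Final

set_option autoImplicit false

namespace Pool.Agent.Results.MP_324c10_co.LargeInfluences

open Finset

/-- measure of `A` -/
noncomputable def mu {n : ℕ} (A : Finset (Fin n → Bool)) : ℝ := (A.card : ℝ) / 2 ^ n

/-- influence of the coordinate `i` on `A` (same expression as in the frozen statement) -/
noncomputable def infl {n : ℕ} (A : Finset (Fin n → Bool)) (i : Fin n) : ℝ :=
  ((Finset.univ.filter (fun (x : Fin n → Bool) =>
    ¬ (x ∈ A ↔ Function.update x i (!(x i)) ∈ A))).card : ℝ) / 2 ^ n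

/-- the indicator of `A` is a multilinear real polynomial of degree at most `d` in the bits -/
def IndDegLe {n : ℕ} (d : ℕ) (A : Finset (Fin n → Bool)) : Prop :=
  ∃ c : Finset (Fin n) → ℝ, (∀ T, d < T.card → c T = 0) ∧
    ∀ x : Fin n → Bool, (if x ∈ A then (1 : ℝ) else 0) =
      ∑ T : Finset (Fin n), c T * ∏ j ∈ T, (if x j then (1 : ℝ) else 0)

/-- Talagrand's influence inequality with the optimal constant `2` for all sets without small
nonzero influences, and for all Boolean functions of degree at most six. -/
theorem result (n : ℕ) (A : Finset (Fin n → Bool)) (hne : ∀ i, infl A i ≠ 1)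
    (h : (∀ i, infl A i = 0 ∨
          min (1 / 32) (min (mu A ^ (1 / (1 - mu A))) ((1 - mu A) ^ (1 / mu A))) ≤ infl A i) ∨
        IndDegLe 6 A) :
    2 * mu A * (1 - mu A) ≤ ∑ i : Fin n, infl A i / Real.logb 2 (1 / infl A i) := by
  rcases h with h1 | h1
  · exact W542.Tal.const_min3 n A hne h1
  · exact W542.Tal.const_large n A hne (fun i => W542.Tal.beta_degree i A h1)

end Pool.Agent.Results.MP_324c10_co.LargeInfluences
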