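import Pool.Agent.W267.HC8

set_option autoImplicit false

/-!
MP_324c10_co, partial result. For `A ⊆ {0,1}^n` of measure `p` and with influences `β i`:
a Talagrand inequality that is an equality for every subcube, and the inequality with constant 2
when every nonempty pivotal set fills at least 1/9 of the smallest subcube containing it.
-/

namespace Pool.Agent.Results.MP_324c10_co.SubcubeSharp

open Pool.Agent.W267.HC

theorem result :
    (∀ (n : ℕ) (A : Finset (Fin n → Bool)),
      2 * ((A.card : ℝ) / 2 ^ n) * (1 - (A.card : ℝ) / 2 ^ n) ≤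
        ∑ i : Fin n, infl A i * (1 - (1 / 2 : ℝ) ^ lam A i) / lam A i) ∧
    (∀ (n : ℕ) (J : Finset (Fin n)) (v : Fin n → Bool), J.Nonempty →
      ∑ i : Fin n, infl (subc J v) i * (1 - (1 / 2 : ℝ) ^ lam (subc J v) i) / lam (subc J v) i =
        2 * (((subc J v).card : ℝ) / 2 ^ n) * (1 - ((subc J v).card : ℝ) / 2 ^ n)) ∧
    (∀ (n : ℕ) (A : Finset (Fin n → Bool)),
      (∀ i : Fin n, infl A i = 0 ∨ 1 / 22 ≤ infl A i ∨ 1 / 9 ≤ 2 ^ cod (piv A i) * infl A i) →
      (∃ i : Fin n, infl A i = 1) ∨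
        2 * ((A.card : ℝ) / 2 ^ n) * (1 - (A.card : ℝ) / 2 ^ n) ≤
          ∑ i : Fin n, infl A i / Real.logb 2 (1 / infl A i)) :=
  ⟨fun _ A => le_trans (main_min A) (Finset.sum_le_sum fun _ _ => min_le_left _ _),
    fun _ J v hJ => subc_eq v J hJ, fun _ A hA => cor_dense A hA⟩

end Pool.Agent.Results.MP_324c10_co.SubcubeSharp
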